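import Pool.Agent.H474.MS.Stm3

/-!
# MS K8: increments of a function with given Fourier coefficients are `Good` (helper383)
-/

set_option autoImplicit false

open MeasureTheory Filter Topology Set

namespace Pool.Agent.H383.MS.K8

open Pool.Agent.H474.MS

/-- integrability of bounded measurable functions -/
lemma intg {g : ℝ → ℝ} (hm : Measurable g) {V B : ℝ} (hV : 0 ≤ V) (hB : ∀ u ∈ Icc 0 V, |g u| ≤ B) :
    IntervalIntegrable g volume 0 V := by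
  rw [intervalIntegrable_iff_integrableOn_Icc_of_le hV]
  refine Measure.integrableOn_of_bounded (M := B) ?_ hm.aestronglyMeasurable ?_
  · rw [Real.volume_Icc]
    exact ENNReal.ofReal_ne_top
  · exact (ae_restrict_iff' measurableSet_Icc).2 (ae_of_all _ fun u hu => hB u hu)

/-- the exponential sum -/
noncomputable def PS (S : Finset ℂ) (r : ℂ → ℂ) (v : ℝ) : ℂ :=
  ∑ ρ ∈ S, r ρ * Complex.exp ((ρ - 1 / 2) * v)

lemma exp_eq {ρ : ℂ} (hρ : ρ.re = 1 / 2) (v : ℝ) :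
    (ρ - 1 / 2) * (v : ℂ) = ((ρ.im * v : ℝ) : ℂ) * Complex.I := by
  apply Complex.ext <;> simp [hρ]

lemma norm_e {ρ : ℂ} (hρ : ρ.re = 1 / 2) (v : ℝ) : ‖Complex.exp ((ρ - 1 / 2) * v)‖ = 1 := by
  rw [exp_eq hρ, Complex.norm_exp_ofReal_mul_I]

lemma PS_bound {S : Finset ℂ} (hS : ∀ ρ ∈ S, ρ.re = 1 / 2) (r : ℂ → ℂ) (v : ℝ) :
    ‖PS S r v‖ ≤ ∑ ρ ∈ S, ‖r ρ‖ := by
  unfold PS
  refine (norm_sum_le _ _).trans (Finset.sum_le_sum fun ρ hρ => ?_)
  rw [norm_mul, norm_e (hS ρ hρ), mul_one]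

lemma PS_cont (S : Finset ℂ) (r : ℂ → ℂ) : Continuous (PS S r) := by
  unfold PS
  fun_prop

/-- the shift -/
lemma PS_shift (S : Finset ℂ) (r : ℂ → ℂ) (h c v : ℝ) :
    PS S (fun ρ => (c : ℂ) * (Complex.exp (h * ρ) - 1) * r ρ) v =
      c * (Complex.exp (h / 2) * PS S r (v + h) - PS S r v) := by
  unfold PS
  rw [Finset.mul_sum, ← Finset.sum_sub_distrib, Finset.mul_sum]
  refine Finset.sum_congr rfl fun ρ _ => ?_
  have e1 : Complex.exp (h * ρ) * Complex.exp ((ρ - 1 / 2) * v) =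
      Complex.exp (h / 2) * Complex.exp ((ρ - 1 / 2) * ((v + h : ℝ) : ℂ)) := by
    rw [← Complex.exp_add, ← Complex.exp_add]
    congr 1
    push_cast
    ring
  linear_combination (c * r ρ) * e1

/-- one pair of conjugate terms -/
lemma pair_eq {ρ : ℂ} (hρ : ρ.re = 1 / 2) (d : ℂ → ℂ)
    (hd : d ((starRingEnd ℂ) ρ) = (starRingEnd ℂ) (d ρ)) (u : ℝ) :
    ((2 * ‖d ρ‖ * Real.cos (ρ.im * u + (d ρ).arg) : ℝ) : ℂ) =
      d ρ * Complex.exp ((ρ - 1 / 2) * u) +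
        d ((starRingEnd ℂ) ρ) * Complex.exp (((starRingEnd ℂ) ρ - 1 / 2) * u) := by
  have e1 : d ((starRingEnd ℂ) ρ) * Complex.exp (((starRingEnd ℂ) ρ - 1 / 2) * u) =
      (starRingEnd ℂ) (d ρ * Complex.exp ((ρ - 1 / 2) * u)) := by
    have e0 : (starRingEnd ℂ) (1 / 2 : ℂ) = 1 / 2 := by rw [map_div₀, map_one, map_ofNat]
    rw [hd, map_mul, ← Complex.exp_conj, map_mul, map_sub, Complex.conj_ofReal, e0]
  have e2 : d ρ * Complex.exp ((ρ - 1 / 2) * u) =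
      (‖d ρ‖ : ℂ) * Complex.exp (((ρ.im * u + (d ρ).arg : ℝ) : ℂ) * Complex.I) := by
    rw [exp_eq hρ]
    nth_rewrite 1 [← Complex.norm_mul_exp_arg_mul_I (d ρ)]
    rw [mul_assoc, ← Complex.exp_add]
    congr 2
    push_cast
    ring
  rw [e1, Complex.add_conj, e2, Complex.re_ofReal_mul, Complex.exp_ofReal_mul_I_re, mul_assoc]

/-- conjugate-closed finite sums -/
lemma sum_pair {M : Type} [AddCommMonoid M] (P : Finset ℂ) (hP : ∀ ρ ∈ P, 0 < ρ.im) (F : ℂ → M) :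
    ∑ ρ ∈ P ∪ P.image (starRingEnd ℂ), F ρ = ∑ ρ ∈ P, (F ρ + F ((starRingEnd ℂ) ρ)) := by
  rw [Finset.sum_union, Finset.sum_image (fun x _ y _ hxy => (starRingEnd ℂ).injective hxy),
    Finset.sum_add_distrib]
  rw [Finset.disjoint_left]
  intro a ha hb
  obtain ⟨b, hb1, hb2⟩ := Finset.mem_image.1 hb
  have h1 := hP a ha
  have h2 := hP b hb1
  rw [← hb2, Complex.conj_im] at h1
  linarith

lemma TS_eq {n : ℕ} (P : Finset ℂ) (e : Fin n ≃ P) (d : ℂ → ℂ) (hre : ∀ ρ ∈ P, ρ.re = 1 / 2)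
    (him : ∀ ρ ∈ P, 0 < ρ.im) (hd : ∀ ρ ∈ P, d ((starRingEnd ℂ) ρ) = (starRingEnd ℂ) (d ρ)) (u : ℝ) :
    ((TS (fun i => ((e i : P) : ℂ).im) (fun i => ‖d (e i : P)‖) (fun i => (d (e i : P)).arg) u : ℝ) : ℂ) =
      PS (P ∪ P.image (starRingEnd ℂ)) d u := by
  unfold TS PS
  rw [sum_pair P him, Complex.ofReal_sum,
    Equiv.sum_comp e (fun x : P => ((2 * ‖d x‖ * Real.cos ((x : ℂ).im * u + (d x).arg) : ℝ) : ℂ)),
    Finset.sum_coe_sort P (fun x : ℂ => ((2 * ‖d x‖ * Real.cos (x.im * u + (d x).arg) : ℝ) : ℂ))]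
  exact Finset.sum_congr rfl fun ρ hρ => pair_eq (hre ρ hρ) d (hd ρ hρ) u

/-- the mean square of the shifted difference -/
lemma mean_le {E : ℝ → ℝ} (hE : Measurable E) (hE0 : ∀ u, 0 ≤ E u)
    (hEb : ∀ V : ℝ, ∃ B : ℝ, ∀ u ∈ Icc 0 V, |E u| ≤ B) {F : ℝ → ℝ} (hF : Measurable F)
    (hF0 : ∀ u, 0 ≤ F u) {h A B' : ℝ} (hh : 0 ≤ h) (hA : 0 ≤ A) (hB' : 0 ≤ B')
    (hle : ∀ u, 0 ≤ u → F u ≤ A * E (u + h) + B' * E u) {η : ℝ} (hη : 0 < η) {τ : ℝ} (hτ : τ < η)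
    (hlim : Tendsto (mean E) atTop (𝓝 τ)) :
    ∀ᶠ V : ℝ in atTop, mean F V ≤ (2 * A + B') * η := by
  have h1 : ∀ᶠ V : ℝ in atTop, mean E V < η := hlim.eventually (gt_mem_nhds hτ)
  have h2 : ∀ᶠ V : ℝ in atTop, mean E (V + h) < η :=
    (tendsto_atTop_add_const_right atTop h tendsto_id).eventually h1
  filter_upwards [h1, h2, eventually_ge_atTop (max h 1)] with V hV1 hV2 hV3
  have hVh : h ≤ V := (le_max_left _ _).trans hV3
  have hV0 : 0 < V := lt_of_lt_of_le one_pos ((le_max_right _ _).trans hV3)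
  obtain ⟨B, hB⟩ := hEb (V + h)
  have i1 : IntervalIntegrable E volume 0 (V + h) := intg hE (by linarith) hB
  have i2 : IntervalIntegrable E volume 0 V := i1.mono_set (by
    rw [uIcc_of_le hV0.le, uIcc_of_le (by linarith)]
    exact Icc_subset_Icc le_rfl (by linarith))
  have hmE : Measurable (fun u => E (u + h)) := hE.comp (measurable_id.add_const h)
  have i3 : IntervalIntegrable (fun u => E (u + h)) volume 0 V :=
    intg hmE hV0.le (B := B) fun u hu => hB _ ⟨by linarith [hu.1], by linarith [hu.2]⟩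
  have i4 : IntervalIntegrable (fun u => A * E (u + h) + B' * E u) volume 0 V :=
    (i3.const_mul A).add (i2.const_mul B')
  have hBr : ∀ u ∈ Icc 0 V, |F u| ≤ A * B + B' * B := by
    intro u hu
    rw [abs_of_nonneg (hF0 u)]
    refine (hle u hu.1).trans (add_le_add ?_ ?_)
    · exact mul_le_mul_of_nonneg_left ((le_abs_self _).trans
        (hB _ ⟨by linarith [hu.1], by linarith [hu.2]⟩)) hA
    · exact mul_le_mul_of_nonneg_left ((le_abs_self _).trans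
        (hB _ ⟨hu.1, by linarith [hu.2]⟩)) hB'
  have i5 : IntervalIntegrable F volume 0 V := intg hF hV0.le hBr
  have h3 : ∫ u in (0 : ℝ)..V, F u ≤ ∫ u in (0 : ℝ)..V, (A * E (u + h) + B' * E u) :=
    intervalIntegral.integral_mono_on hV0.le i5 i4 fun u hu => hle u hu.1
  have h4 : ∫ u in (0 : ℝ)..V, (A * E (u + h) + B' * E u) =
      A * (∫ u in (0 : ℝ)..V, E (u + h)) + B' * ∫ u in (0 : ℝ)..V, E u := by
    rw [intervalIntegral.integral_add (i3.const_mul A) (i2.const_mul B'),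
      intervalIntegral.integral_const_mul, intervalIntegral.integral_const_mul]
  have h5 : ∫ u in (0 : ℝ)..V, E (u + h) ≤ ∫ u in (0 : ℝ)..(V + h), E u := by
    rw [intervalIntegral.integral_comp_add_right (fun u => E u) h, zero_add]
    have i6 : IntervalIntegrable E volume 0 h := i1.mono_set (by
      rw [uIcc_of_le hh, uIcc_of_le (by linarith)]
      exact Icc_subset_Icc le_rfl (by linarith))
    have i7 : IntervalIntegrable E volume h (V + h) := i1.mono_set (by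
      rw [uIcc_of_le (by linarith : h ≤ V + h), uIcc_of_le (by linarith)]
      exact Icc_subset_Icc hh le_rfl)
    rw [← intervalIntegral.integral_add_adjacent_intervals i6 i7]
    have : 0 ≤ ∫ u in (0 : ℝ)..h, E u := intervalIntegral.integral_nonneg hh fun u _ => hE0 u
    linarith
  unfold mean at hV1 hV2 ⊢
  rw [div_lt_iff₀ hV0] at hV1
  rw [div_lt_iff₀ (by linarith)] at hV2
  rw [div_le_iff₀ hV0]
  have h6 : ∫ u in (0 : ℝ)..V, E (u + h) ≤ 2 * η * V := by nlinarith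
  have h7 := mul_le_mul_of_nonneg_left h6 hA
  have h8 := mul_le_mul_of_nonneg_left hV1.le hB'
  linarith [h3, h4]

theorem t_K8 : S_K8 := by
  intro f hf hb Z hre hconj him r hr hsum hT hli h c m hh hm hdm
  have hbb : ∀ S : Finset ℂ, (∀ ρ ∈ S, ρ.re = 1 / 2) → ∀ V : ℝ, ∃ B : ℝ, ∀ u ∈ Icc 0 V,
      |‖((f u : ℝ) : ℂ) - PS S r u‖ ^ 2| ≤ B := by
    intro S hS V
    obtain ⟨B, hB⟩ := hb V
    refine ⟨(B + ∑ ρ ∈ S, ‖r ρ‖) ^ 2, fun u hu => ?_⟩
    rw [abs_of_nonneg (sq_nonneg _)]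
    refine pow_le_pow_left₀ (norm_nonneg _) ?_ 2
    refine (norm_sub_le _ _).trans (add_le_add ?_ (PS_bound hS r u))
    rw [Complex.norm_real, Real.norm_eq_abs]
    exact hB u hu
  obtain ⟨d, hd⟩ : ∃ d : ℂ → ℂ, d = fun ρ => (c : ℂ) * (Complex.exp (h * ρ) - 1) * r ρ := ⟨_, rfl⟩
  have hdρ : ∀ ρ, (c : ℂ) * (Complex.exp (h * ρ) - 1) * r ρ = d ρ := fun ρ => by rw [hd]
  have hdc : ∀ ρ ∈ Z, d ((starRingEnd ℂ) ρ) = (starRingEnd ℂ) (d ρ) := by
    intro ρ hρ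
    rw [hd]
    change (c : ℂ) * (Complex.exp (h * (starRingEnd ℂ) ρ) - 1) * r ((starRingEnd ℂ) ρ) = _
    rw [hr ρ hρ, map_mul, map_mul, map_sub, map_one, Complex.conj_ofReal, ← Complex.exp_conj,
      map_mul, Complex.conj_ofReal]
  have hK : ∀ ρ ∈ Z, ‖d ρ‖ ^ 2 ≤ (|c| * (Real.exp (h / 2) + 1)) ^ 2 * ‖r ρ‖ ^ 2 := by
    intro ρ hρ
    rw [← mul_pow]
    refine pow_le_pow_left₀ (norm_nonneg _) ?_ 2
    rw [hd]
    change ‖(c : ℂ) * (Complex.exp (h * ρ) - 1) * r ρ‖ ≤ _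
    rw [norm_mul, norm_mul, Complex.norm_real, Real.norm_eq_abs]
    refine mul_le_mul_of_nonneg_right (mul_le_mul_of_nonneg_left ?_ (abs_nonneg c)) (norm_nonneg _)
    refine (norm_sub_le _ _).trans (le_of_eq ?_)
    rw [Complex.norm_exp, norm_one]
    congr 2
    rw [Complex.re_ofReal_mul, hre ρ hρ]
    ring
  obtain ⟨K, hKdef⟩ : ∃ K : ℝ, K = (|c| * (Real.exp (h / 2) + 1)) ^ 2 := ⟨_, rfl⟩
  have hK0 : 0 ≤ K := by
    rw [hKdef]
    positivity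
  rw [← hKdef] at hK
  have hdsum : Summable (fun ρ : Z => ‖d ρ‖ ^ 2) :=
    Summable.of_nonneg_of_le (fun _ => sq_nonneg _) (fun ρ => hK ρ ρ.2) (hsum.mul_left K)
  simp only [hdρ] at hdm ⊢
  refine ⟨?_, ?_, hm, ?_⟩
  · exact ((hf.comp (measurable_id.add_const h)).const_mul _ |>.sub hf).const_mul c
  · intro V
    obtain ⟨B, hB⟩ := hb (V + h)
    refine ⟨|c| * (Real.exp (h / 2) * B + B), fun u hu => ?_⟩
    rw [abs_mul]
    refine mul_le_mul_of_nonneg_left ?_ (abs_nonneg c)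
    refine (abs_sub _ _).trans (add_le_add ?_ ?_)
    · rw [abs_mul, abs_of_pos (Real.exp_pos _)]
      exact mul_le_mul_of_nonneg_left (hB _ ⟨by linarith [hu.1], by linarith [hu.2]⟩)
        (Real.exp_pos _).le
    · exact hB _ ⟨hu.1, by linarith [hu.2]⟩
  intro ε hε
  obtain ⟨C1, hC1⟩ : ∃ C1 : ℝ, C1 = 2 * (2 * c ^ 2 * Real.exp h) + 2 * c ^ 2 + K + 1 := ⟨_, rfl⟩
  have hC10 : 0 < C1 := by
    rw [hC1]
    positivity
  have hη : 0 < ε / C1 := by positivity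
  -- a finite set with a small tail
  obtain ⟨T, hTs⟩ : ∃ T : Finset Z, ∑' ρ : Z, ‖r ρ‖ ^ 2 - ∑ ρ ∈ T, ‖r ρ‖ ^ 2 < ε / C1 := by
    have h1 : Tendsto (fun T : Finset Z => ∑ ρ ∈ T, ‖r ρ‖ ^ 2) atTop (𝓝 (∑' ρ : Z, ‖r ρ‖ ^ 2)) :=
      hsum.hasSum
    obtain ⟨T, hT⟩ := (h1.eventually (lt_mem_nhds
      (show ∑' ρ : Z, ‖r ρ‖ ^ 2 - ε / C1 < ∑' ρ : Z, ‖r ρ‖ ^ 2 by linarith))).exists
    exact ⟨T, by linarith⟩
  classical
  obtain ⟨P, hP⟩ : ∃ P : Finset ℂ, P = T.image (fun ρ : Z =>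
    if 0 < (ρ : ℂ).im then (ρ : ℂ) else (starRingEnd ℂ) ρ) := ⟨_, rfl⟩
  have hPZ : ∀ ρ ∈ P, ρ ∈ Z ∧ 0 < ρ.im := by
    intro ρ hρ
    rw [hP] at hρ
    obtain ⟨x, -, hx⟩ := Finset.mem_image.1 hρ
    by_cases h1 : 0 < (x : ℂ).im
    · rw [if_pos h1] at hx
      rw [← hx]
      exact ⟨x.2, h1⟩
    · rw [if_neg h1] at hx
      rw [← hx]
      refine ⟨hconj _ x.2, ?_⟩
      rw [Complex.conj_im]
      have := him _ x.2
      have h2 : (x : ℂ).im < 0 := lt_of_le_of_ne (not_lt.1 h1) this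
      linarith
  obtain ⟨S, hS⟩ : ∃ S : Finset ℂ, S = P ∪ P.image (starRingEnd ℂ) := ⟨_, rfl⟩
  have hSZ : ∀ ρ ∈ S, ρ ∈ Z := by
    intro ρ hρ
    rw [hS] at hρ
    rcases Finset.mem_union.1 hρ with h1 | h1
    · exact (hPZ ρ h1).1
    · obtain ⟨x, hx, rfl⟩ := Finset.mem_image.1 h1
      exact hconj _ (hPZ x hx).1
  have hTS : ∀ ρ ∈ T, (ρ : ℂ) ∈ S := by
    intro ρ hρ
    have h1 : (if 0 < (ρ : ℂ).im then (ρ : ℂ) else (starRingEnd ℂ) ρ) ∈ P := by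
      rw [hP]
      exact Finset.mem_image_of_mem (fun ρ : Z =>
        if 0 < (ρ : ℂ).im then (ρ : ℂ) else (starRingEnd ℂ) ρ) hρ
    rw [hS]
    by_cases h2 : 0 < (ρ : ℂ).im
    · rw [if_pos h2] at h1
      exact Finset.mem_union_left _ h1
    · rw [if_neg h2] at h1
      refine Finset.mem_union_right _ (Finset.mem_image.2 ⟨_, h1, ?_⟩)
      exact Complex.conj_conj _
  -- tails
  have hsubt : ∀ F : ℂ → ℝ, ∑ ρ ∈ S.subtype (fun x => x ∈ Z), F ρ = ∑ ρ ∈ S, F ρ := fun F =>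
    Finset.sum_subtype_of_mem F hSZ
  have htail : ∑' ρ : Z, ‖r ρ‖ ^ 2 - ∑ ρ ∈ S, ‖r ρ‖ ^ 2 < ε / C1 := by
    refine lt_of_le_of_lt ?_ hTs
    have h1 : ∑ ρ ∈ T, ‖r ρ‖ ^ 2 ≤ ∑ ρ ∈ S.subtype (fun x => x ∈ Z), ‖r ρ‖ ^ 2 :=
      Finset.sum_le_sum_of_subset_of_nonneg
        (fun x hx => Finset.mem_subtype.2 (hTS x hx)) fun _ _ _ => sq_nonneg _
    rw [hsubt (fun ρ => ‖r ρ‖ ^ 2)] at h1
    linarith
  have htail2 : ∑' ρ : Z, ‖d ρ‖ ^ 2 - ∑ ρ ∈ S, ‖d ρ‖ ^ 2 ≤ K * (∑' ρ : Z, ‖r ρ‖ ^ 2 - ∑ ρ ∈ S, ‖r ρ‖ ^ 2) := by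
    have h1 := ((hsum.mul_left K).sub hdsum).sum_le_tsum (S.subtype (fun x => x ∈ Z))
      fun ρ _ => sub_nonneg.2 (hK ρ ρ.2)
    rw [(hsum.mul_left K).tsum_sub hdsum, tsum_mul_left, Finset.sum_sub_distrib, ← Finset.mul_sum,
      hsubt (fun ρ => ‖r ρ‖ ^ 2), hsubt (fun ρ => ‖d ρ‖ ^ 2)] at h1
    linarith
  have htail3 : 0 ≤ ∑' ρ : Z, ‖d ρ‖ ^ 2 - ∑ ρ ∈ S, ‖d ρ‖ ^ 2 := by
    have h1 := hdsum.sum_le_tsum (S.subtype (fun x => x ∈ Z)) fun ρ _ => sq_nonneg _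
    rw [hsubt (fun ρ => ‖d ρ‖ ^ 2)] at h1
    linarith
  have hPre : ∀ ρ ∈ P, ρ.re = 1 / 2 := fun ρ hρ => hre ρ (hPZ ρ hρ).1
  let e : Fin P.card ≃ P := P.equivFin.symm
  refine ⟨P.card, fun i => ((e i : P) : ℂ).im, fun i => ‖d (e i : P)‖, fun i => (d (e i : P)).arg,
    ?_, ?_, ?_, ?_⟩
  · exact hli.comp (fun i => (⟨((e i : P) : ℂ), hPZ _ (e i).2⟩ : {ρ : ℂ // ρ ∈ Z ∧ 0 < ρ.im}))
      fun i j hij => e.injective (Subtype.ext (congrArg (fun x : {ρ : ℂ // ρ ∈ Z ∧ 0 < ρ.im} => (x : ℂ)) hij))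
  · exact fun i => hdm _ (hPZ _ (e i).2).1
  · have h1 : 2 * ∑ i, ‖d (e i : P)‖ ^ 2 = ∑ ρ ∈ S, ‖d ρ‖ ^ 2 := by
      rw [hS, sum_pair P (fun ρ hρ => (hPZ ρ hρ).2),
        Equiv.sum_comp e (fun x : P => ‖d x‖ ^ 2),
        Finset.sum_coe_sort P (fun x : ℂ => ‖d x‖ ^ 2), Finset.mul_sum]
      refine Finset.sum_congr rfl fun ρ hρ => ?_
      rw [hdc ρ (hPZ ρ hρ).1, RCLike.norm_conj]
      ring
    rw [h1, abs_sub_comm, abs_of_nonneg htail3]
    refine htail2.trans ((mul_le_mul_of_nonneg_left htail.le hK0).trans ?_)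
    rw [mul_div_assoc', div_le_iff₀ hC10, mul_comm]
    refine mul_le_mul_of_nonneg_left ?_ hε.le
    rw [hC1]
    have : 0 ≤ 2 * (2 * c ^ 2 * Real.exp h) + 2 * c ^ 2 := by positivity
    linarith
  · have hE : Measurable (fun u => ‖((f u : ℝ) : ℂ) - PS S r u‖ ^ 2) :=
      (((Complex.measurable_ofReal.comp hf).sub (PS_cont S r).measurable).norm).pow_const 2
    have hTSc : Continuous (TS (fun i => ((e i : P) : ℂ).im) (fun i => ‖d (e i : P)‖)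
        (fun i => (d (e i : P)).arg)) := by
      unfold TS
      fun_prop
    have key : ∀ u : ℝ, (c * (Real.exp (h / 2) * f (u + h) - f u) -
        TS (fun i => ((e i : P) : ℂ).im) (fun i => ‖d (e i : P)‖) (fun i => (d (e i : P)).arg) u) ^ 2 ≤
        2 * c ^ 2 * Real.exp h * ‖((f (u + h) : ℝ) : ℂ) - PS S r (u + h)‖ ^ 2 +
          2 * c ^ 2 * ‖((f u : ℝ) : ℂ) - PS S r u‖ ^ 2 := by
      intro u
      have e1 : (((c * (Real.exp (h / 2) * f (u + h) - f u) -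
          TS (fun i => ((e i : P) : ℂ).im) (fun i => ‖d (e i : P)‖)
            (fun i => (d (e i : P)).arg) u : ℝ)) : ℂ) =
          c * (Complex.exp (h / 2) * (((f (u + h) : ℝ) : ℂ) - PS S r (u + h)) -
            (((f u : ℝ) : ℂ) - PS S r u)) := by
        rw [Complex.ofReal_sub, TS_eq P e d hPre (fun ρ hρ => (hPZ ρ hρ).2)
          (fun ρ hρ => hdc ρ (hPZ ρ hρ).1) u, ← hS, hd, PS_shift]
        push_cast
        ring
      have e2 : (c * (Real.exp (h / 2) * f (u + h) - f u) -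
          TS (fun i => ((e i : P) : ℂ).im) (fun i => ‖d (e i : P)‖)
            (fun i => (d (e i : P)).arg) u) ^ 2 =
          ‖(c : ℂ) * (Complex.exp (h / 2) * (((f (u + h) : ℝ) : ℂ) - PS S r (u + h)) -
            (((f u : ℝ) : ℂ) - PS S r u))‖ ^ 2 := by
        rw [← e1, Complex.norm_real, Real.norm_eq_abs, sq_abs]
      rw [e2, norm_mul, mul_pow, Complex.norm_real, Real.norm_eq_abs, sq_abs]
      have e3 : ‖Complex.exp (h / 2) * (((f (u + h) : ℝ) : ℂ) - PS S r (u + h)) -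
            (((f u : ℝ) : ℂ) - PS S r u)‖ ≤ Real.exp (h / 2) * ‖((f (u + h) : ℝ) : ℂ) - PS S r (u + h)‖ +
            ‖((f u : ℝ) : ℂ) - PS S r u‖ := by
        refine (norm_sub_le _ _).trans (le_of_eq ?_)
        rw [norm_mul, Complex.norm_exp]
        congr 3
        simp
      have e4 : Real.exp h = Real.exp (h / 2) ^ 2 := by
        rw [← Real.exp_nat_mul]
        congr 1
        push_cast
        ring
      have e5 := pow_le_pow_left₀ (norm_nonneg _) e3 2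
      rw [e4]
      have hc2 : 0 ≤ c ^ 2 := sq_nonneg c
      have e6 := mul_le_mul_of_nonneg_left e5 hc2
      refine e6.trans ?_
      have e7 := mul_nonneg hc2 (sq_nonneg (Real.exp (h / 2) * ‖((f (u + h) : ℝ) : ℂ) - PS S r (u + h)‖ -
            ‖((f u : ℝ) : ℂ) - PS S r u‖))
      nlinarith
    have hFm : Measurable (fun u => (c * (Real.exp (h / 2) * f (u + h) - f u) -
        TS (fun i => ((e i : P) : ℂ).im) (fun i => ‖d (e i : P)‖)
          (fun i => (d (e i : P)).arg) u) ^ 2) :=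
      ((((hf.comp (measurable_id.add_const h)).const_mul _ |>.sub hf).const_mul c).sub
        hTSc.measurable).pow_const 2
    have h1 := mean_le hE (fun u => sq_nonneg _) (hbb S fun ρ hρ => hre ρ (hSZ ρ hρ)) hFm
      (fun u => sq_nonneg _) hh (A := 2 * c ^ 2 * Real.exp h) (B' := 2 * c ^ 2) (by positivity)
      (by positivity) (fun u _ => key u) hη htail (hT S hSZ)
    filter_upwards [h1] with V hV
    refine hV.trans ?_
    rw [mul_div_assoc', div_le_iff₀ hC10, mul_comm]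
    refine mul_le_mul_of_nonneg_left ?_ hε.le
    rw [hC1]
    linarith

end Pool.Agent.H383.MS.K8
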